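import Mathlib

set_option autoImplicit false

/-!
A real analytic map `f` of `ℝ³` into itself, nonexpansive for the maximum norm, whose set of fixed
points is the cone `z (x² + y² + z²) = δ x³`. This cone is not a linear subspace, and therefore it
is not the range of any retraction which is differentiable at the origin.
-/

namespace Pool.Agent.Results.MP_735b88_an.NoDifferentiableRetraction

open Set Filter Topology

/-- `N` is a polyhedral norm on `ℝⁿ`: it is the maximum of finitely many linear functionals, it is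
symmetric, and it vanishes only at `0`. -/
def IsPolyhedralNorm {n : ℕ} (N : (Fin n → ℝ) → ℝ) : Prop :=
  (∀ x, N x = 0 → x = 0) ∧ (∀ x, N (-x) = N x) ∧
    ∃ (m : ℕ) (φ : Fin m → ((Fin n → ℝ) →ₗ[ℝ] ℝ)), ∀ x, IsGreatest (range fun i => φ i x) (N x)

/-- `g` is nonexpansive for the norm `N`. -/
def Nonexpansive {n : ℕ} (N : (Fin n → ℝ) → ℝ) (g : (Fin n → ℝ) → (Fin n → ℝ)) : Prop :=
  ∀ x y, N (g x - g y) ≤ N (x - y)

/-- `r` is a retraction of `ℝⁿ` onto `A`. -/
def IsRetractionOnto {n : ℕ} (r : (Fin n → ℝ) → (Fin n → ℝ)) (A : Set (Fin n → ℝ)) : Prop :=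
  range r = A ∧ ∀ a ∈ A, r a = a

/-- The constant `δ = c³ + c` with `c = 1/10`. -/
noncomputable def δ : ℝ := 101 / 1000

/-- The cubic form. -/
noncomputable def G (x y z : ℝ) : ℝ := z * (x ^ 2 + y ^ 2 + z ^ 2) - δ * x ^ 3

/-- The denominator. -/
noncomputable def q (x y z : ℝ) : ℝ := 1 + (x ^ 2 + y ^ 2 + z ^ 2)

lemma q_pos (x y z : ℝ) : 0 < q x y z := by unfold q; positivity

/-- The third coordinate of the map. -/
noncomputable def F (x y z : ℝ) : ℝ := z - G x y z / (2 * q x y z)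

/-- The numerator of the `x`-derivative of `G / q`. -/
noncomputable def na (x y z : ℝ) : ℝ :=
  2 * x * z - 3 * δ * x ^ 2 * (1 + (x ^ 2 + y ^ 2 + z ^ 2)) + 2 * δ * x ^ 4

/-- The numerator of the `y`-derivative of `G / q`. -/
noncomputable def nb (x y z : ℝ) : ℝ := 2 * y * z + 2 * δ * x ^ 3 * y

/-- The numerator of the `z`-derivative of `G / q`. -/
noncomputable def nc (x y z : ℝ) : ℝ :=
  3 * z ^ 2 + x ^ 2 + y ^ 2 + (x ^ 2 + y ^ 2 + z ^ 2) ^ 2 + 2 * δ * z * x ^ 3

lemma key1 (x y z : ℝ) : |na x y z| + |nb x y z| ≤ nc x y z := by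
  set R := x ^ 2 + y ^ 2 + z ^ 2 with hR
  have hR0 : 0 ≤ R := by positivity
  have hx2 : x ^ 2 ≤ R := by rw [hR]; nlinarith [sq_nonneg y, sq_nonneg z]
  have hδ : δ = 101 / 1000 := rfl
  -- products of absolute values
  have hxz : 2 * (|x| * |z|) ≤ 2 * (|x| * |z|) := le_rfl
  have e1 : |x| ^ 2 = x ^ 2 := sq_abs x
  have e2 : |y| ^ 2 = y ^ 2 := sq_abs y
  have e3 : |z| ^ 2 = z ^ 2 := sq_abs z
  have h4 : x ^ 4 ≤ x ^ 2 * R := by nlinarith [sq_nonneg x]
  have h4' : 0 ≤ x ^ 4 := by positivity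
  have h5 : |x| ^ 3 * |y| ≤ R * R := by
    have a1 : |x| * |y| ≤ R := by nlinarith [sq_nonneg (|x| - |y|), sq_nonneg z]
    have a2 : |x| ^ 2 ≤ R := by rw [e1]; exact hx2
    calc |x| ^ 3 * |y| = |x| ^ 2 * (|x| * |y|) := by ring
      _ ≤ R * R := mul_le_mul a2 a1 (by positivity) hR0
  have h6 : |x| ^ 3 * |z| ≤ R * R := by
    have a1 : |x| * |z| ≤ R := by nlinarith [sq_nonneg (|x| - |z|), sq_nonneg y]
    have a2 : |x| ^ 2 ≤ R := by rw [e1]; exact hx2
    calc |x| ^ 3 * |z| = |x| ^ 2 * (|x| * |z|) := by ring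
      _ ≤ R * R := mul_le_mul a2 a1 (by positivity) hR0
  have hna : |na x y z| ≤ 2 * (|x| * |z|) + (3 * δ * x ^ 2 + 3 * δ * (x ^ 2 * R)) := by
    have a0 : na x y z = 2 * (x * z) - (3 * δ * x ^ 2 * (1 + R) - 2 * δ * x ^ 4) := by
      unfold na; rw [hR]; ring
    have a1 : |2 * (x * z)| = 2 * (|x| * |z|) := by
      rw [abs_mul, abs_mul, abs_two]
    have a2 : |3 * δ * x ^ 2 * (1 + R) - 2 * δ * x ^ 4| ≤ 3 * δ * x ^ 2 + 3 * δ * (x ^ 2 * R) := by
      rw [abs_le, hδ]
      constructor <;> nlinarith [sq_nonneg x]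
    rw [a0]
    calc _ ≤ |2 * (x * z)| + |3 * δ * x ^ 2 * (1 + R) - 2 * δ * x ^ 4| := abs_sub _ _
      _ ≤ _ := by rw [a1]; linarith
  have hnb : |nb x y z| ≤ 2 * (|y| * |z|) + 2 * δ * (|x| ^ 3 * |y|) := by
    have a0 : nb x y z = 2 * (y * z) + 2 * δ * (x ^ 3 * y) := by unfold nb; ring
    rw [a0]
    refine (abs_add_le _ _).trans (le_of_eq ?_)
    rw [abs_mul, abs_mul, abs_two, abs_mul, abs_mul, abs_two, abs_mul, abs_pow, hδ,
      abs_of_pos (by norm_num : (0 : ℝ) < 101 / 1000)]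
  have hnc : 3 * z ^ 2 + x ^ 2 + y ^ 2 + R * R - 2 * δ * (|x| ^ 3 * |z|) ≤ nc x y z := by
    have a0 : nc x y z = 3 * z ^ 2 + x ^ 2 + y ^ 2 + R * R + 2 * δ * (x ^ 3 * z) := by
      unfold nc; rw [hR]; ring
    have a1 : -(|x| ^ 3 * |z|) ≤ x ^ 3 * z := by
      rw [← abs_pow, ← abs_mul]; exact neg_abs_le _
    rw [a0, hδ]
    linarith
  have hquad : 2 * (|x| * |z|) + 2 * (|y| * |z|) + 3 * δ * x ^ 2 ≤ 3 * z ^ 2 + x ^ 2 + y ^ 2 := by
    rw [hδ, ← e1, ← e2, ← e3]
    nlinarith [sq_nonneg (|y| - |z|), sq_nonneg (|x| - 2 * |z|)]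
  have hquart : 3 * δ * (x ^ 2 * R) + 2 * δ * (|x| ^ 3 * |y|) + 2 * δ * (|x| ^ 3 * |z|) ≤
      R * R := by
    have a1 : x ^ 2 * R ≤ R * R := mul_le_mul_of_nonneg_right hx2 hR0
    rw [hδ]
    nlinarith
  linarith

lemma key2 (x y z : ℝ) : nc x y z ≤ 2 * q x y z ^ 2 := by
  set R := x ^ 2 + y ^ 2 + z ^ 2 with hR
  have hR0 : 0 ≤ R := by positivity
  have h6 : x ^ 3 * z ≤ R * R := by
    have a1 : x * z ≤ R := by nlinarith [sq_nonneg (x - z), sq_nonneg y, sq_nonneg x, sq_nonneg z]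
    have a2 : x ^ 2 ≤ R := by rw [hR]; nlinarith [sq_nonneg y, sq_nonneg z]
    rcases le_or_gt 0 (x * z) with h | h
    · calc x ^ 3 * z = x ^ 2 * (x * z) := by ring
        _ ≤ R * R := mul_le_mul a2 a1 h hR0
    · have : x ^ 3 * z = x ^ 2 * (x * z) := by ring
      rw [this]
      nlinarith [mul_nonneg hR0 hR0, mul_nonneg (sq_nonneg x) (neg_pos.2 h).le]
  have a0 : nc x y z = 3 * z ^ 2 + x ^ 2 + y ^ 2 + R * R + 2 * δ * (x ^ 3 * z) := by
    unfold nc; rw [hR]; ring
  have a1 : 3 * z ^ 2 + x ^ 2 + y ^ 2 ≤ 3 * R := by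
    rw [hR]; nlinarith [sq_nonneg x, sq_nonneg y]
  have hδ : δ = 101 / 1000 := rfl
  rw [a0]
  unfold q
  rw [← hR, hδ]
  nlinarith

/-- The derivative of the third coordinate along a line. -/
lemma hasDerivAt_line (a b c u v w t : ℝ) :
    HasDerivAt (fun s : ℝ => F (a + s * u) (b + s * v) (c + s * w))
      (w - (na (a + t * u) (b + t * v) (c + t * w) * u + nb (a + t * u) (b + t * v) (c + t * w) * v
        + nc (a + t * u) (b + t * v) (c + t * w) * w) /
          (2 * q (a + t * u) (b + t * v) (c + t * w) ^ 2)) t := by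
  have hl : ∀ a u : ℝ, HasDerivAt (fun s : ℝ => a + s * u) u t := by
    intro a u
    simpa using ((hasDerivAt_id t).mul_const u).const_add a
  have hx := hl a u
  have hy := hl b v
  have hz := hl c w
  have hR := ((hx.pow 2).add (hy.pow 2)).add (hz.pow 2)
  have hG := (hz.mul hR).sub ((hx.pow 3).const_mul δ)
  have hq := (hR.const_add 1).const_mul 2
  have hne : 2 * (1 + ((a + t * u) ^ 2 + (b + t * v) ^ 2 + (c + t * w) ^ 2)) ≠ 0 := by positivity
  have h := hz.sub (hG.div hq hne)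
  refine h.congr_deriv ?_
  simp only [Pi.add_apply, Pi.mul_apply, Pi.pow_apply, Pi.sub_apply]
  unfold na nb nc q
  have hne' : (1 + ((a + t * u) ^ 2 + (b + t * v) ^ 2 + (c + t * w) ^ 2)) ≠ 0 := by positivity
  generalize a + t * u = x at *
  generalize b + t * v = y at *
  generalize c + t * w = z at *
  congr 1
  rw [div_eq_div_iff (by positivity) (by positivity)]
  push_cast
  ring

lemma F_nonexpansive (a b c a' b' c' M : ℝ) (h1 : |a' - a| ≤ M) (h2 : |b' - b| ≤ M)
    (h3 : |c' - c| ≤ M) : |F a' b' c' - F a b c| ≤ M := by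
  have hM : 0 ≤ M := (abs_nonneg _).trans h1
  have hbound : ∀ t : ℝ, |(c' - c) - (na (a + t * (a' - a)) (b + t * (b' - b)) (c + t * (c' - c)) *
      (a' - a) + nb (a + t * (a' - a)) (b + t * (b' - b)) (c + t * (c' - c)) * (b' - b)
        + nc (a + t * (a' - a)) (b + t * (b' - b)) (c + t * (c' - c)) * (c' - c)) /
          (2 * q (a + t * (a' - a)) (b + t * (b' - b)) (c + t * (c' - c)) ^ 2)| ≤ M := by
    intro t
    generalize a + t * (a' - a) = x
    generalize b + t * (b' - b) = y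
    generalize c + t * (c' - c) = z
    have k1 := key1 x y z
    have k2 := key2 x y z
    have hq := q_pos x y z
    have hQ : 0 < 2 * q x y z ^ 2 := by positivity
    generalize 2 * q x y z ^ 2 = Q at *
    have e : (c' - c) - (na x y z * (a' - a) + nb x y z * (b' - b) + nc x y z * (c' - c)) / Q =
        ((Q - nc x y z) * (c' - c) - na x y z * (a' - a) - nb x y z * (b' - b)) / Q := by
      field_simp; ring
    rw [e, abs_div, abs_of_pos hQ, div_le_iff₀ hQ]
    have i1 : |(Q - nc x y z) * (c' - c)| ≤ (Q - nc x y z) * M := by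
      rw [abs_mul, abs_of_nonneg (sub_nonneg.2 k2)]
      exact mul_le_mul_of_nonneg_left h3 (sub_nonneg.2 k2)
    have i2 : |na x y z * (a' - a)| ≤ |na x y z| * M := by
      rw [abs_mul]; exact mul_le_mul_of_nonneg_left h1 (abs_nonneg _)
    have i3 : |nb x y z * (b' - b)| ≤ |nb x y z| * M := by
      rw [abs_mul]; exact mul_le_mul_of_nonneg_left h2 (abs_nonneg _)
    calc |(Q - nc x y z) * (c' - c) - na x y z * (a' - a) - nb x y z * (b' - b)|
        ≤ |(Q - nc x y z) * (c' - c)| + |na x y z * (a' - a)| + |nb x y z * (b' - b)| := by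
          refine (abs_sub _ _).trans ?_
          gcongr
          exact abs_sub _ _
      _ ≤ (Q - nc x y z) * M + |na x y z| * M + |nb x y z| * M := by linarith
      _ = (Q - nc x y z + (|na x y z| + |nb x y z|)) * M := by ring
      _ ≤ (Q - nc x y z + nc x y z) * M := by gcongr
      _ = M * Q := by ring
  have h := norm_image_sub_le_of_norm_deriv_le_segment_01'
    (f := fun s : ℝ => F (a + s * (a' - a)) (b + s * (b' - b)) (c + s * (c' - c)))
    (fun t _ => (hasDerivAt_line a b c (a' - a) (b' - b) (c' - c) t).hasDerivWithinAt)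
    (fun t _ => by rw [Real.norm_eq_abs]; exact hbound t)
  simpa [Real.norm_eq_abs] using h

/-- The map `(x, y, z) ↦ (x, y, z - G(x,y,z) / (2 (1 + x² + y² + z²)))`. -/
noncomputable def f (p : Fin 3 → ℝ) : Fin 3 → ℝ := ![p 0, p 1, F (p 0) (p 1) (p 2)]

lemma f_zero (p : Fin 3 → ℝ) : f p 0 = p 0 := rfl
lemma f_one (p : Fin 3 → ℝ) : f p 1 = p 1 := rfl
lemma f_two (p : Fin 3 → ℝ) : f p 2 = F (p 0) (p 1) (p 2) := rfl

lemma f_analytic : AnalyticOnNhd ℝ f univ := by
  have hp : ∀ i : Fin 3, AnalyticOnNhd ℝ (fun p : Fin 3 → ℝ => p i) univ := fun i =>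
    (ContinuousLinearMap.proj (R := ℝ) (φ := fun _ : Fin 3 => ℝ) i).analyticOnNhd univ
  intro p hp'
  rw [show f = fun p => fun i => f p i from rfl, analyticAt_pi_iff]
  have h0 := hp 0 p hp'
  have h1 := hp 1 p hp'
  have h2 := hp 2 p hp'
  intro i
  fin_cases i
  · exact h0
  · exact h1
  · have hR := ((h0.pow 2).add (h1.pow 2)).add (h2.pow 2)
    have hG := (h2.mul hR).sub (analyticAt_const (v := δ) |>.mul (h0.pow 3))
    have hq := analyticAt_const (𝕜 := ℝ) (v := (2 : ℝ)) |>.mul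
      ((analyticAt_const (𝕜 := ℝ) (v := (1 : ℝ))).add hR)
    refine h2.sub (hG.div hq ?_)
    have := q_pos (p 0) (p 1) (p 2)
    unfold q at this
    exact (mul_pos two_pos this).ne'

lemma f_nonexpansive (p p' : Fin 3 → ℝ) : ‖f p - f p'‖ ≤ ‖p - p'‖ := by
  have h : ∀ i, |p i - p' i| ≤ ‖p - p'‖ := fun i => norm_le_pi_norm (p - p') i
  refine (pi_norm_le_iff_of_nonneg (norm_nonneg _)).2 fun i => ?_
  fin_cases i
  · exact h 0
  · exact h 1
  · exact F_nonexpansive _ _ _ _ _ _ _ (h 0) (h 1) (h 2)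

lemma mem_fix (p : Fin 3 → ℝ) : f p = p ↔ G (p 0) (p 1) (p 2) = 0 := by
  have hq := q_pos (p 0) (p 1) (p 2)
  constructor
  · intro h
    have h1 : F (p 0) (p 1) (p 2) = p 2 := congrFun h 2
    unfold F at h1
    have h2 : G (p 0) (p 1) (p 2) / (2 * q (p 0) (p 1) (p 2)) = 0 := by linarith
    rcases div_eq_zero_iff.1 h2 with h3 | h3
    · exact h3
    · linarith
  · intro h
    ext i
    fin_cases i
    · rfl
    · rfl
    · change F (p 0) (p 1) (p 2) = p 2
      unfold F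
      rw [h, zero_div, sub_zero]

/-- The set of fixed points. -/
def Fix : Set (Fin 3 → ℝ) := {p | f p = p}

lemma fix_smul (t : ℝ) (p : Fin 3 → ℝ) (hp : p ∈ Fix) : t • p ∈ Fix := by
  have h := (mem_fix p).1 hp
  refine (mem_fix _).2 ?_
  simp only [Pi.smul_apply, smul_eq_mul]
  unfold G at h ⊢
  linear_combination t ^ 3 * h

lemma fix_closed : IsClosed Fix := by
  have hc : Continuous f := continuousOn_univ.1 f_analytic.continuousOn
  exact isClosed_eq hc continuous_id

/-- The fixed point `(1, 0, 1/10)`. -/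
noncomputable def u₁ : Fin 3 → ℝ := ![1, 0, 1 / 10]

/-- The fixed point `(0, 1, 0)`. -/
noncomputable def u₂ : Fin 3 → ℝ := ![0, 1, 0]

lemma u₁_mem : u₁ ∈ Fix := (mem_fix _).2 (by simp [u₁, G, δ]; norm_num)
lemma u₂_mem : u₂ ∈ Fix := (mem_fix _).2 (by simp [u₂, G])

lemma add_not_mem : u₁ + u₂ ∉ Fix := by
  intro h
  have h1 := (mem_fix _).1 h
  simp [u₁, u₂, G, δ] at h1
  norm_num at h1

/-- No map which is differentiable at `0` is a retraction onto the set of fixed points. -/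
lemma no_retraction (r : (Fin 3 → ℝ) → (Fin 3 → ℝ)) (hr : IsRetractionOnto r Fix)
    (hd : DifferentiableAt ℝ r 0) : False := by
  obtain ⟨L, hL⟩ := hd
  have h0 : (0 : Fin 3 → ℝ) ∈ Fix := by
    have := fix_smul 0 u₁ u₁_mem
    rwa [zero_smul] at this
  have hr0 : r 0 = 0 := hr.2 0 h0
  -- the limit of the difference quotients
  have hlim : ∀ w : Fin 3 → ℝ, Tendsto (fun t : ℝ => t⁻¹ • r (t • w)) (𝓝[≠] 0) (𝓝 (L w)) := by
    intro w
    have h1 : HasFDerivAt r L (0 + (0 : ℝ) • w) := by simpa using hL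
    have h2 := (hL.hasLineDerivAt w)
    have h3 := h2.tendsto_slope_zero
    simpa [hr0] using h3
  have hfix : ∀ v ∈ Fix, L v = v := by
    intro v hv
    have h1 : Tendsto (fun t : ℝ => t⁻¹ • r (t • v)) (𝓝[≠] 0) (𝓝 v) := by
      refine (tendsto_congr' ?_).2 tendsto_const_nhds
      filter_upwards [self_mem_nhdsWithin] with t ht
      rw [hr.2 _ (fix_smul t v hv), smul_smul, inv_mul_cancel₀ ht, one_smul]
    exact tendsto_nhds_unique (hlim v) h1
  have hrange : ∀ w, L w ∈ Fix := by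
    intro w
    refine fix_closed.mem_of_tendsto (hlim w) (Eventually.of_forall fun t => ?_)
    refine fix_smul _ _ ?_
    rw [← hr.1]
    exact mem_range_self _
  have h1 := hrange (u₁ + u₂)
  rw [map_add, hfix _ u₁_mem, hfix _ u₂_mem] at h1
  exact add_not_mem h1

lemma polyhedral : IsPolyhedralNorm (fun x : Fin 3 → ℝ => ‖x‖) := by
  refine ⟨fun x hx => norm_eq_zero.1 hx, fun x => norm_neg x, 6,
    fun i => if i.val < 3 then LinearMap.proj (Fin.ofNat 3 i.val)
      else -LinearMap.proj (Fin.ofNat 3 i.val), fun x => ⟨?_, ?_⟩⟩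
  · obtain ⟨j, hj⟩ : ∃ j : Fin 3, ‖x‖ = |x j| := by
      by_contra hcon
      push Not at hcon
      have h1 : ∀ j, |x j| < ‖x‖ := fun j => lt_of_le_of_ne (norm_le_pi_norm x j) (hcon j).symm
      have h2 : 0 < ‖x‖ := (abs_nonneg _).trans_lt (h1 0)
      exact absurd ((pi_norm_lt_iff h2).2 h1) (lt_irrefl _)
    rcases le_or_gt 0 (x j) with h | h
    · refine ⟨⟨j.val, by omega⟩, ?_⟩
      have : Fin.ofNat 3 j.val = j := by ext; simp [Fin.ofNat]
      simp only [j.isLt, if_true, this]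
      rw [hj, abs_of_nonneg h]; rfl
    · refine ⟨⟨j.val + 3, by omega⟩, ?_⟩
      have : Fin.ofNat 3 (j.val + 3) = j := by ext; simp [Fin.ofNat]
      have h3 : ¬ (j.val + 3 < 3) := by omega
      simp only [h3, if_false, this]
      rw [hj, abs_of_neg h]; rfl
  · rintro _ ⟨i, rfl⟩
    by_cases hi : i.val < 3
    · simp only [hi, if_true]
      exact (le_abs_self _).trans (norm_le_pi_norm x _)
    · simp only [hi, if_false]
      exact (neg_le_abs _).trans (norm_le_pi_norm x _)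

/-- There are a polyhedral norm `N` on `ℝ³` (the maximum norm) and a real analytic map `f`, nonexpansive
for `N`, with a nonempty set of fixed points, such that no retraction of `ℝ³` onto the set of fixed
points of `f` is differentiable at the origin (nonexpansive or not). The set of fixed points is
closed under multiplication by scalars and not closed under addition. -/
theorem result :
    ∃ (N : (Fin 3 → ℝ) → ℝ) (f : (Fin 3 → ℝ) → (Fin 3 → ℝ)),
      IsPolyhedralNorm N ∧ AnalyticOnNhd ℝ f univ ∧ Nonexpansive N f ∧ {p | f p = p}.Nonempty ∧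
      (∀ r : (Fin 3 → ℝ) → (Fin 3 → ℝ), IsRetractionOnto r {p | f p = p} →
        ¬ DifferentiableAt ℝ r 0) ∧
      (∀ (t : ℝ) (p : Fin 3 → ℝ), f p = p → f (t • p) = t • p) ∧
      ∃ p p' : Fin 3 → ℝ, f p = p ∧ f p' = p' ∧ f (p + p') ≠ p + p' :=
  ⟨fun x => ‖x‖, f, polyhedral, f_analytic, f_nonexpansive, ⟨u₁, u₁_mem⟩,
    fun r hr hd => no_retraction r hr hd, fun t p hp => fix_smul t p hp,
    u₁, u₂, u₁_mem, u₂_mem, add_not_mem⟩

end Pool.Agent.Results.MP_735b88_an.NoDifferentiableRetraction
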